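import Pool.Agent.H.MP_1ebdda_an.E

namespace Pool.Agent.Results.MP_1ebdda_an.Yes

open MeasureTheory Set Filter Topology Real

noncomputable abbrev mu : Measure ℝ := volume.restrict (Ioo (-(π / 2)) (π / 2))

noncomputable abbrev L2 : Type := Lp ℂ 2 mu

/-- The graph of the operator, on representatives. -/
def Gr (a : ℝ) (ψ g : ℝ → ℂ) : Prop :=
  ∃ u v : ℝ → ℂ, (∀ x ∈ Icc (-(π / 2)) (π / 2), u x = u 0 + ∫ t in (0 : ℝ)..x, v t) ∧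
    (∀ x ∈ Icc (-(π / 2)) (π / 2), v x = v 0 - ∫ t in (0 : ℝ)..x, g t) ∧
    (∀ᵐ x ∂mu, ψ x = u x) ∧ u (-(π / 2)) = u (π / 2 * a) ∧ u (π / 2 * a) = u (π / 2)

def GrL (a : ℝ) (ψ g : L2) : Prop := Gr a ψ g

variable {E : Type} [NormedAddCommGroup E] [NormedSpace ℂ E]

/-- The kernel of the `k`-th power of `H - z`, for the operator `H` with graph `G`. -/
def Ker (G : E → E → Prop) (z : ℂ) (k : ℕ) : Set E :=
  Nat.rec {0} (fun _ K => {ψ | ∃ g, G ψ g ∧ g - z • ψ ∈ K}) k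

def RootSystem (G : E → E → Prop) (ψ : ℕ → E) : Prop :=
  ∃ ev : ℕ → ℂ, ∀ z, LinearIndependent ℂ (fun j : {j // ev j = z} => ψ j) ∧
    (Submodule.span ℂ (ψ '' {j | ev j = z}) : Set E) = ⋃ k, Ker G z k

def Schauder (ψ : ℕ → E) : Prop :=
  ∀ f, ∃! c : ℕ → ℂ, Tendsto (fun N => ∑ j ∈ Finset.range N, c j • ψ j) atTop (𝓝 f)

def Uncond (ψ : ℕ → E) : Prop := ∀ f, ∃ c : ℕ → ℂ, HasSum (fun j => c j • ψ j) f

theorem result (a : ℚ) (h1 : -1 < a) (h2 : a < 1) :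
    ∃ ψ : ℕ → L2, RootSystem (GrL a) ψ ∧ Schauder ψ ∧ Uncond ψ := by
  have e : ∀ z k, Ker (GrL a) z k = Pool.Agent.H.MP_1ebdda_an.Ker a z k := by
    intro z k
    induction k with
    | zero => rfl
    | succ k ih => rw [Pool.Agent.H.MP_1ebdda_an.Ker, ← ih]; rfl
  obtain ⟨ψ, ev, k1, k2⟩ := Pool.Agent.H.MP_1ebdda_an.main a h1 h2
  exact ⟨ψ, ⟨ev, by simpa only [e] using k1⟩, k2⟩

end Pool.Agent.Results.MP_1ebdda_an.Yes
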